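import Mathlib

namespace Pool.Agent.Results.MP_020c1a_co.GL23

open Matrix

abbrev G := GL (Fin 2) (ZMod 3)

def u : G := ⟨!![1, 1; 0, 1], !![1, 2; 0, 1], by decide, by decide⟩
def w : G := ⟨!![2, 1; 0, 2], !![2, 2; 0, 2], by decide, by decide⟩

lemma dvd3 (x : G) (h : x ^ 2 ≠ 1) (h6 : x ^ 6 = 1) : 3 ∣ orderOf x := by
  have h1 : orderOf x ∣ 6 := orderOf_dvd_of_pow_eq_one h6
  have h2 : ¬ orderOf x ∣ 2 := fun hh => h (orderOf_dvd_iff_pow_eq_one.1 hh)
  have h3 : orderOf x ≤ 6 := Nat.le_of_dvd (by norm_num) h1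
  generalize orderOf x = n at *
  interval_cases n <;> simp_all

lemma cardG : Nat.card G = 48 := by
  rw [Matrix.card_GL_field]
  simp [Fin.prod_univ_two]

theorem result : ¬ ∀ F : Finset (GL (Fin 2) (ZMod 3)),
    ((∀ g ∈ F, ∀ h ∈ F, g ≠ h → 3 ∣ orderOf (g * h⁻¹)) ∧
      ∀ F' : Finset (GL (Fin 2) (ZMod 3)),
        (∀ g ∈ F', ∀ h ∈ F', g ≠ h → 3 ∣ orderOf (g * h⁻¹)) → F'.card ≤ F.card) ↔
    ∃ (P : Sylow 3 (GL (Fin 2) (ZMod 3))) (g h : GL (Fin 2) (ZMod 3)),
      (F : Set (GL (Fin 2) (ZMod 3))) = (fun s => g * s * h) '' (P : Set (GL (Fin 2) (ZMod 3))) := by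
  classical
  intro H
  have hP : ∀ P : Sylow 3 G, Nat.card P = 3 := by
    intro P
    rw [P.card_eq_multiplicity, cardG]
    have : Nat.factorization 48 3 = 1 := by
      rw [Nat.factorization_def _ (by norm_num)]
      have : (48 : ℕ) = 3 * 16 := by norm_num
      rw [this, padicValNat.mul (by norm_num) (by norm_num), padicValNat_self,
        padicValNat.eq_zero_of_not_dvd (by norm_num)]
    rw [this]; norm_num
  obtain ⟨P0⟩ : Nonempty (Sylow 3 G) := inferInstance
  have hmax := (H (Set.toFinset (P0 : Set G))).2 ⟨P0, 1, 1, by simp⟩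
  have hc : (Set.toFinset (P0 : Set G)).card = 3 := by
    rw [Set.toFinset_card, ← Nat.card_eq_fintype_card]; exact hP P0
  have hF : ({1, u, w} : Finset G).card = 3 := by
    rw [Finset.card_eq_three]
    exact ⟨1, u, w, by decide, by decide, by decide, rfl⟩
  have hsing : ∀ g ∈ ({1, u, w} : Finset G), ∀ h ∈ ({1, u, w} : Finset G), g ≠ h →
      3 ∣ orderOf (g * h⁻¹) := by
    intro g hg h hh hne
    simp only [Finset.mem_insert, Finset.mem_singleton] at hg hh
    rcases hg with rfl | rfl | rfl <;> rcases hh with rfl | rfl | rfl <;>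
      first | exact absurd rfl hne | exact dvd3 _ (by decide) (by decide)
  obtain ⟨P, g, h, e⟩ := (H {1, u, w}).1 ⟨hsing, fun F' hF' =>
    (hmax.2 F' hF').trans (hc.trans hF.symm).le⟩
  have m1 : (1 : G) ∈ (fun s => g * s * h) '' (P : Set G) := by rw [← e]; simp
  have m2 : w ∈ (fun s => g * s * h) '' (P : Set G) := by rw [← e]; simp
  obtain ⟨a, ha, ea⟩ := m1
  obtain ⟨b, hb, eb⟩ := m2
  have hab : b * a⁻¹ ∈ P := P.toSubgroup.mul_mem hb (P.toSubgroup.inv_mem ha)
  have h3 : (b * a⁻¹) ^ 3 = 1 := by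
    have := pow_card_eq_one' (G := P.toSubgroup) (x := ⟨_, hab⟩)
    rw [show Nat.card P.toSubgroup = 3 from hP P] at this
    exact congrArg Subtype.val this
  have hw : w = g * (b * a⁻¹) * g⁻¹ := by
    simp only at ea eb
    have : h = (g * a)⁻¹ := eq_inv_of_mul_eq_one_right ea
    rw [← eb, this]; group
  have : w ^ 3 = 1 := by rw [hw, conj_pow, h3]; group
  revert this; decide

end Pool.Agent.Results.MP_020c1a_co.GL23
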